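import Mathlib

open MeasureTheory Set Filter Topology

namespace Pool.Agent.Lib.MP_d4a354_an

variable {m : ℕ}

/-- The composition of the maps `y ↦ β y - d` along the word `w`. -/
def T (β : ℝ) (w : List (Fin (m + 1))) (x : ℝ) : ℝ :=
  w.foldl (fun y d => β * y - ((d : ℕ) : ℝ)) x

@[simp] lemma T_nil (β x : ℝ) : T β ([] : List (Fin (m + 1))) x = x := rfl

@[simp] lemma T_cons (β x : ℝ) (d : Fin (m + 1)) (w : List (Fin (m + 1))) :
    T β (d :: w) x = T β w (β * x - ((d : ℕ) : ℝ)) := rfl

lemma T_append (β x : ℝ) (u w : List (Fin (m + 1))) :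
    T β (u ++ w) x = T β w (T β u x) := by
  simp [T, List.foldl_append]

lemma T_sub (β x y : ℝ) (w : List (Fin (m + 1))) :
    T β w x - T β w y = β ^ w.length * (x - y) := by
  induction w generalizing x y with
  | nil => simp
  | cons d w ih =>
    simp only [T_cons, List.length_cons, ih, pow_succ]
    ring

lemma continuous_T (β : ℝ) (w : List (Fin (m + 1))) : Continuous (T β w) := by
  induction w with
  | nil => exact continuous_id
  | cons d w ih =>
    have : T β (d :: w) = (T β w) ∘ (fun x => β * x - ((d : ℕ) : ℝ)) := rfl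
    rw [this]
    exact ih.comp (by fun_prop)

lemma T_surj {β : ℝ} (hβ : 1 < β) (w : List (Fin (m + 1))) (y : ℝ) : ∃ x, T β w x = y := by
  refine ⟨(y - T β w 0) / β ^ w.length, ?_⟩
  have h := T_sub β ((y - T β w 0) / β ^ w.length) 0 w
  have hb : β ^ w.length ≠ 0 := pow_ne_zero _ (by linarith)
  rw [sub_zero, mul_div_cancel₀ _ hb] at h
  linarith

lemma volume_preimage_T {β : ℝ} (hβ : 1 < β) (w : List (Fin (m + 1))) (S : Set ℝ) :
    volume (T β w ⁻¹' S) = ENNReal.ofReal β⁻¹ ^ w.length * volume S := by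
  induction w generalizing S with
  | nil =>
    have : T β ([] : List (Fin (m + 1))) = id := rfl
    rw [this]; simp
  | cons d w ih =>
    have h1 : T β (d :: w) ⁻¹' S = (fun x => β * x) ⁻¹' ((fun y => y - ((d : ℕ) : ℝ)) ⁻¹' (T β w ⁻¹' S)) := by
      ext x; simp
    have h0 : (0 : ℝ) < β := by linarith
    rw [h1, Real.volume_preimage_mul_left (ne_of_gt h0)]
    have h2 : volume ((fun y : ℝ => y - ((d : ℕ) : ℝ)) ⁻¹' (T β w ⁻¹' S)) = volume (T β w ⁻¹' S) := by
      have := measure_preimage_add_right (volume : Measure ℝ) (-((d : ℕ) : ℝ)) (T β w ⁻¹' S)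
      simpa [sub_eq_add_neg] using this
    rw [h2, ih, List.length_cons, pow_succ, abs_of_pos (inv_pos.mpr h0)]
    ring

/-- constants: `c = m / (β - 1)` -/
structure Par (β c : ℝ) (m : ℕ) : Prop where
  one_lt : 1 < β
  one_lt_c : 1 < c
  one_le_m : 1 ≤ m
  lt : β < m + 1
  eq : β * c - m = c

variable {β c : ℝ}

lemma Par.pos (h : Par β c m) : 0 < β := by have := h.one_lt; linarith

lemma exists_digit (h : Par β c m) {x : ℝ} (hx : x ∈ Icc 0 c) :
    ∃ d : Fin (m + 1), β * x - ((d : ℕ) : ℝ) ∈ Icc 0 c := by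
  have h1 := h.one_lt
  have h2 := h.one_lt_c
  have h3 := h.eq
  have h4 := h.pos
  have hx0 : 0 ≤ β * x := mul_nonneg h4.le hx.1
  by_cases hm : β * x < m + 1
  · refine ⟨⟨⌊β * x⌋₊, ?_⟩, ?_⟩
    · rw [Nat.floor_lt hx0]; push_cast; exact hm
    · constructor
      · have := Nat.floor_le hx0
        simpa using this
      · have := Nat.lt_floor_add_one (β * x)
        simp only
        linarith
  · refine ⟨⟨m, Nat.lt_succ_self m⟩, ?_⟩
    simp only
    constructor
    · push Not at hm; linarith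
    · have : β * x ≤ β * c := mul_le_mul_of_nonneg_left hx.2 h4.le
      linarith

lemma exists_word (h : Par β c m) {x : ℝ} (hx : x ∈ Icc 0 c) (n : ℕ) :
    ∃ w : List (Fin (m + 1)), w.length = n ∧ T β w x ∈ Icc 0 c := by
  induction n with
  | zero => exact ⟨[], rfl, by simpa using hx⟩
  | succ n ih =>
    obtain ⟨w, hw, hT⟩ := ih
    obtain ⟨d, hd⟩ := exists_digit h hT
    refine ⟨w ++ [d], by simp [hw], ?_⟩
    rw [T_append]
    simpa using hd

/-- If a word sends `x` into `I` then `x ∈ I`. -/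
lemma mem_of_T_mem (h : Par β c m) (w : List (Fin (m + 1))) {x : ℝ} (hx : T β w x ∈ Icc 0 c) :
    x ∈ Icc 0 c := by
  induction w generalizing x with
  | nil => simpa using hx
  | cons d w ih =>
    have h1 := ih hx
    have h4 := h.pos
    have hd : ((d : ℕ) : ℝ) ≤ m := by exact_mod_cast Nat.lt_succ_iff.mp d.2
    have hd0 : (0 : ℝ) ≤ ((d : ℕ) : ℝ) := by positivity
    have h3 := h.eq
    constructor
    · have : 0 ≤ β * x := by linarith [h1.1]
      by_contra hneg
      push Not at hneg
      have := mul_neg_of_pos_of_neg h4 hneg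
      linarith
    · have : β * x ≤ β * c := by linarith [h1.2]
      exact le_of_mul_le_mul_left this h4

end Pool.Agent.Lib.MP_d4a354_an
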