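import Pool.Agent.Lib.MP_d4a354_an.Stage2

open MeasureTheory Set Filter Topology
open scoped ENNReal

namespace Pool.Agent.Lib.MP_d4a354_an

variable {m : ℕ} {β c : ℝ}

lemma Blk.le_length {pU pL : Fin (m + 1) → ℝ} {δ : ℝ} {D N : ℕ} {p : List (Fin (m + 1))}
    (h : Blk pU pL δ D N p) : N ≤ p.length := by
  obtain ⟨n, h1, h2, _⟩ := h.2.1 0
  exact h1.trans h2

/-- An infinite concatenation of nonempty words. -/
lemma exists_concat (p W : ℕ → List (Fin (m + 1))) (hW0 : W 0 = [])
    (hWs : ∀ j, W (j + 1) = W j ++ p j) (hp : ∀ j, 1 ≤ (p j).length) :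
    ∃ ε : ℕ → Fin (m + 1), ∀ j, pre ε (W j).length = W j := by
  have hlen : ∀ j, j ≤ (W j).length := by
    intro j
    induction j with
    | zero => simp
    | succ j ih => rw [hWs, List.length_append]; have := hp j; omega
  have hpre : ∀ i j, i ≤ j → W i <+: W j := by
    intro i j hij
    induction j, hij using Nat.le_induction with
    | base => exact List.prefix_rfl
    | succ j _ ih => exact ih.trans (by rw [hWs]; exact List.prefix_append _ _)
  refine ⟨fun n => (W (n + 1)).getD n 0, fun j => ?_⟩
  apply List.ext_getElem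
  · simp
  · intro n h1 h2
    simp only [pre, List.getElem_map, List.getElem_range]
    have h3 : n < (W (n + 1)).length := hlen (n + 1)
    rw [List.getD_eq_getElem _ _ h3]
    rcases le_total (n + 1) j with hle | hle
    · exact (hpre _ _ hle).getElem h3
    · exact ((hpre _ _ hle).getElem h2).symm

lemma cnt_block {p W : ℕ → List (Fin (m + 1))} {ε : ℕ → Fin (m + 1)}
    (hWs : ∀ j, W (j + 1) = W j ++ p j) (hε : ∀ j, pre ε (W j).length = W j)
    (k : Fin (m + 1)) (j r : ℕ) (hr : r ≤ (p j).length) :
    cnt ε k ((W j).length + r) = cnt ε k (W j).length + ((p j).take r).count k := by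
  have hle : (W j).length + r ≤ (W (j + 1)).length := by rw [hWs, List.length_append]; omega
  rw [← count_pre, ← count_pre, ← take_pre ε hle, hε (j + 1), hε j, hWs,
    List.take_length_add_append, List.count_append]

lemma freq_concat {pU pL : Fin (m + 1) → ℝ} (p W : ℕ → List (Fin (m + 1)))
    (hW0 : W 0 = []) (hWs : ∀ j, W (j + 1) = W j ++ p j) (ε : ℕ → Fin (m + 1))
    (hε : ∀ j, pre ε (W j).length = W j) (δ : ℕ → ℝ) (D N : ℕ → ℕ)
    (hδ : ∀ j, 0 < δ j ∧ δ j ≤ 1 / ((j : ℝ) + 1))
    (hb : ∀ j, Blk pU pL (δ j) (D j) (N j) (p j))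
    (hN : ∀ j, (j + 1) * ((∑ l ∈ Finset.range (j + 2), D l) + (W j).length) ≤ N j)
    (hN1 : ∀ j, j + 1 ≤ N j) : FreqOK pU pL ε := by
  have hpl : ∀ j, N j ≤ (p j).length := fun j => (hb j).le_length
  have hL1 : ∀ j, (W (j + 1)).length = (W j).length + (p j).length := fun j => by
    rw [hWs, List.length_append]
  have hmono : StrictMono (fun j => (W j).length) := by
    apply strictMono_nat_of_lt_succ
    intro j
    have h1 := hL1 j
    have h2 := hpl j
    have h3 := hN1 j
    omega
  -- error terms
  set e : ℕ → ℝ := fun j => ∑ i ∈ Finset.range j, (δ i * (p i).length + D i) with he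
  have hlow : ∀ k j, pL k * (W j).length - e j ≤ (cnt ε k (W j).length : ℝ) ∧
      (cnt ε k (W j).length : ℝ) ≤ pU k * (W j).length + e j := by
    intro k j
    induction j with
    | zero => simp [hW0, he, cnt]
    | succ j ih =>
      have h1 := cnt_block hWs hε k j (p j).length le_rfl
      rw [← hL1] at h1
      rw [h1, hL1]
      have h2 := (hb j).1 (p j).length le_rfl k
      have h3 : e (j + 1) = e j + (δ j * (p j).length + D j) := by
        simp only [he]; rw [Finset.sum_range_succ]
      rw [h3]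
      push_cast
      constructor
      · linarith [ih.1, h2.1]
      · linarith [ih.2, h2.2]
  -- the error is small
  have hesmall : ∀ j : ℕ, e (j + 1) + D (j + 1) ≤ 3 / ((j : ℝ) + 1) * (W (j + 1)).length := by
    intro j
    have h1 : e (j + 1) + D (j + 1) = (∑ i ∈ Finset.range j, δ i * (p i).length) +
        δ j * (p j).length + ((∑ l ∈ Finset.range (j + 2), D l : ℕ) : ℝ) := by
      simp only [he, Finset.sum_add_distrib]
      rw [Finset.sum_range_succ (fun i => δ i * ((p i).length : ℝ)),
        Finset.sum_range_succ (fun l => D l) (j + 1)]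
      push_cast
      ring
    have h2 : (∑ i ∈ Finset.range j, δ i * (p i).length) ≤ ((W j).length : ℝ) := by
      have h3 : ∀ j, (∑ i ∈ Finset.range j, ((p i).length : ℝ)) = ((W j).length : ℝ) := by
        intro j
        induction j with
        | zero => simp [hW0]
        | succ j ih => rw [Finset.sum_range_succ, ih, hL1]; push_cast; ring
      rw [← h3 j]
      apply Finset.sum_le_sum
      intro i _
      have h4 : δ i ≤ 1 := by
        refine (hδ i).2.trans ?_
        rw [div_le_one (by positivity)]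
        linarith [show (0:ℝ) ≤ i by positivity]
      have h5 : (0:ℝ) ≤ (p i).length := by positivity
      nlinarith
    have h6 : ((j:ℝ) + 1) * (((∑ l ∈ Finset.range (j + 2), D l : ℕ) : ℝ) + (W j).length) ≤
        (p j).length := by
      have := (hN j).trans (hpl j)
      exact_mod_cast this
    have h7 : (((∑ l ∈ Finset.range (j + 2), D l : ℕ) : ℝ) + (W j).length) ≤
        1 / ((j:ℝ) + 1) * (p j).length := by
      rw [one_div, inv_mul_eq_div, le_div_iff₀ (by positivity)]
      linarith
    have h8 : δ j * (p j).length ≤ 1 / ((j:ℝ) + 1) * (p j).length := by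
      have := (hδ j).2
      gcongr
    have h9 : ((p j).length : ℝ) ≤ (W (j + 1)).length := by
      rw [hL1]; push_cast; linarith [show (0:ℝ) ≤ ((W j).length : ℝ) by positivity]
    have h10 : (0:ℝ) < 1 / ((j:ℝ) + 1) := by positivity
    have h11 : (3:ℝ) / ((j:ℝ) + 1) = 3 * (1 / ((j:ℝ) + 1)) := by ring
    rw [h1, h11]
    have h12 : 1 / ((j:ℝ) + 1) * ((p j).length : ℝ) ≤ 1 / ((j:ℝ) + 1) * (W (j + 1)).length := by
      gcongr
    have h13 : (0:ℝ) ≤ 1 / ((j:ℝ) + 1) * (W (j + 1)).length := by positivity
    nlinarith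
  have hmain : ∀ k (j r : ℕ), r ≤ (p (j + 1)).length →
      (pL k - 3 / ((j:ℝ) + 1)) * (((W (j + 1)).length + r : ℕ) : ℝ) ≤
        (cnt ε k ((W (j + 1)).length + r) : ℝ) ∧
      (cnt ε k ((W (j + 1)).length + r) : ℝ) ≤
        (pU k + 3 / ((j:ℝ) + 1)) * (((W (j + 1)).length + r : ℕ) : ℝ) := by
    intro k j r hr
    rw [cnt_block hWs hε k (j + 1) r hr]
    have h1 := hlow k (j + 1)
    have h2 := (hb (j + 1)).1 r hr k
    have h3 := hesmall j
    have h4 : δ (j + 1) ≤ 3 / ((j:ℝ) + 1) := by
      refine (hδ (j + 1)).2.trans ?_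
      push_cast
      rw [div_le_div_iff₀ (by positivity) (by positivity)]
      linarith [show (0:ℝ) ≤ j by positivity]
    have h5 : δ (j + 1) * (r:ℝ) ≤ 3 / ((j:ℝ) + 1) * r := by gcongr
    push_cast
    constructor
    · nlinarith [h1.1, h2.1]
    · nlinarith [h1.2, h2.2]
  -- locate a time in a block
  have hloc : ∀ n : ℕ, ∃ j, (W j).length ≤ n ∧ n < (W (j + 1)).length := by
    intro n
    induction n with
    | zero =>
      refine ⟨0, by simp [hW0], ?_⟩
      have : (W 0).length < (W (0 + 1)).length := hmono (Nat.lt_add_one 0)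
      omega
    | succ n ih =>
      obtain ⟨j, h1, h2⟩ := ih
      by_cases h3 : n + 1 < (W (j + 1)).length
      · exact ⟨j, by omega, h3⟩
      · refine ⟨j + 1, by omega, ?_⟩
        have : (W (j + 1)).length < (W (j + 1 + 1)).length := hmono (Nat.lt_add_one (j + 1))
        omega
  obtain ⟨A, hA⟩ : ∃ A : ℕ, ∀ k, |pU k| ≤ A ∧ |pL k| ≤ A := by
    obtain ⟨A, hA⟩ := exists_nat_ge (∑ k, (|pU k| + |pL k|))
    refine ⟨A, fun k => ?_⟩
    have hk : |pU k| + |pL k| ≤ ∑ k, (|pU k| + |pL k|) :=
      Finset.single_le_sum (f := fun k => |pU k| + |pL k|) (fun i _ => by positivity)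
        (Finset.mem_univ k)
    constructor
    · linarith [abs_nonneg (pL k)]
    · linarith [abs_nonneg (pU k)]
  apply freqOK_of_arith
  intro k d hd
  obtain ⟨j0, hj0⟩ := exists_nat_gt ((A + 3) / d)
  have hj0' : ((A:ℝ) + 3) / ((j0:ℝ) + 1) ≤ d := by
    rw [div_lt_iff₀ hd] at hj0
    rw [div_le_iff₀ (by positivity)]
    nlinarith
  have hAd : ∀ j : ℕ, j0 ≤ j → ((A:ℝ) + 3) / ((j:ℝ) + 1) ≤ d := by
    intro j hj
    refine le_trans ?_ hj0'
    have : (j0:ℝ) ≤ j := by exact_mod_cast hj
    gcongr
  have hW' : ∀ j : ℕ, ((W j).length : ℝ) + D j ≤ (N j : ℝ) / ((j:ℝ) + 1) := by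
    intro j
    rw [le_div_iff₀ (by positivity)]
    have h1 := hN j
    have h2 : D j ≤ ∑ l ∈ Finset.range (j + 2), D l :=
      Finset.single_le_sum (f := fun l => D l) (fun i _ => Nat.zero_le _)
        (Finset.mem_range.mpr (by omega))
    have h3 : (j + 1) * (D j + (W j).length) ≤ N j := by
      refine le_trans ?_ h1
      gcongr
    have h4 : ((j:ℝ) + 1) * ((D j : ℝ) + (W j).length) ≤ N j := by exact_mod_cast h3
    linarith
  refine ⟨?_, ?_, ?_⟩
  · rw [eventually_atTop]
    refine ⟨(W (j0 + 1)).length, fun n hn => ?_⟩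
    obtain ⟨j, hj1, hj2⟩ := hloc n
    have hjj : j0 < j := by
      have : (W (j0 + 1)).length < (W (j + 1)).length := lt_of_le_of_lt hn hj2
      have := hmono.lt_iff_lt.mp this
      omega
    obtain ⟨j', rfl⟩ : ∃ j', j = j' + 1 := ⟨j - 1, by omega⟩
    obtain ⟨r, rfl⟩ := Nat.exists_eq_add_of_le hj1
    have hr : r ≤ (p (j' + 1)).length := by
      have := hL1 (j' + 1)
      omega
    have h1 := hmain k j' r hr
    have h2 : 3 / ((j':ℝ) + 1) ≤ d := by
      refine le_trans ?_ (hAd j' (by omega))
      gcongr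
      linarith [show (0:ℝ) ≤ A by positivity]
    constructor
    · refine le_trans ?_ h1.1
      gcongr
    · refine h1.2.trans ?_
      gcongr
  · rw [frequently_atTop]
    intro n0
    set j := max j0 n0 with hj
    obtain ⟨r, hr1, hr2, hr3⟩ := (hb j).2.1 k
    have hrN : (N j : ℝ) ≤ r := by exact_mod_cast hr1
    refine ⟨(W j).length + r, ?_, ?_⟩
    · have := hN1 j
      have : n0 ≤ j := le_max_right _ _
      omega
    · rw [cnt_block hWs hε k j r hr2]
      have h1 := hW' j
      have h2 := hAd j (le_max_left _ _)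
      have h3 := (hδ j)
      have hUk := abs_le.mp (hA k).1
      set q : ℝ := 1 / ((j:ℝ) + 1) with hq
      have hq0 : 0 < q := by positivity
      have h4 : ((W j).length : ℝ) + D j ≤ q * r := by
        refine h1.trans ?_
        rw [hq, one_div, inv_mul_eq_div]
        gcongr
      have h5 : ((A:ℝ) + 3) * q ≤ d := by
        rw [hq, mul_one_div]; exact h2
      have hL0 : (0:ℝ) ≤ (W j).length := by positivity
      have hD0 : (0:ℝ) ≤ D j := by positivity
      have hr0 : (0:ℝ) ≤ r := by positivity
      have hA0 : (0:ℝ) ≤ A := by positivity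
      have hc0 : (0:ℝ) ≤ cnt ε k (W j).length := by positivity
      push_cast
      have h6 : (pU k - d) * ((W j).length : ℝ) ≤ A * (q * r) := by
        have : (pU k - d) * ((W j).length : ℝ) ≤ A * (W j).length := by
          gcongr; linarith
        refine this.trans ?_
        gcongr
        linarith
      have h7 : (δ j) * r ≤ q * r := by
        have := h3.2
        gcongr
      have h8 : ((A:ℝ) + 3) * q * r ≤ d * r := by gcongr
      nlinarith
  · rw [frequently_atTop]
    intro n0
    set j := max j0 n0 with hj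
    obtain ⟨r, hr1, hr2, hr3⟩ := (hb j).2.2 k
    have hrN : (N j : ℝ) ≤ r := by exact_mod_cast hr1
    refine ⟨(W j).length + r, ?_, ?_⟩
    · have := hN1 j
      have : n0 ≤ j := le_max_right _ _
      omega
    · rw [cnt_block hWs hε k j r hr2]
      have h1 := hW' j
      have h2 := hAd j (le_max_left _ _)
      have h3 := (hδ j)
      have hLk := abs_le.mp (hA k).2
      set q : ℝ := 1 / ((j:ℝ) + 1) with hq
      have hq0 : 0 < q := by positivity
      have h4 : ((W j).length : ℝ) + D j ≤ q * r := by
        refine h1.trans ?_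
        rw [hq, one_div, inv_mul_eq_div]
        gcongr
      have h5 : ((A:ℝ) + 3) * q ≤ d := by
        rw [hq, mul_one_div]; exact h2
      have hL0 : (0:ℝ) ≤ (W j).length := by positivity
      have hD0 : (0:ℝ) ≤ D j := by positivity
      have hr0 : (0:ℝ) ≤ r := by positivity
      have hA0 : (0:ℝ) ≤ A := by positivity
      have hcL : (cnt ε k (W j).length : ℝ) ≤ (W j).length := by exact_mod_cast cnt_le ε k _
      push_cast
      have h6 : -(A * (q * r)) ≤ (pL k + d) * ((W j).length : ℝ) := by
        have : -(A * ((W j).length : ℝ)) ≤ (pL k + d) * ((W j).length : ℝ) := by nlinarith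
        refine le_trans ?_ this
        apply neg_le_neg
        gcongr
        linarith
      have h7 : (δ j) * r ≤ q * r := by
        have := h3.2
        gcongr
      have h8 : ((A:ℝ) + 3) * q * r ≤ d * r := by gcongr
      nlinarith

end Pool.Agent.Lib.MP_d4a354_an
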