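import Pool.Agent.Lib.MP_d4a354_an.Basic

open MeasureTheory Set Filter Topology
open scoped ENNReal

namespace Pool.Agent.Lib.MP_d4a354_an

variable {m : ℕ} {β c : ℝ}

lemma exists_finset_cover {ι : Type*} [Countable ι] (μ : Measure ℝ) (I : Set ℝ) (hI : μ I ≠ ∞)
    (hIm : MeasurableSet I) (Q : ι → Set ℝ) (hQ : ∀ i, MeasurableSet (Q i)) {η : ℝ≥0∞}
    (hη : μ (I \ ⋃ i, Q i) < η) : ∃ F : Finset ι, μ (I \ ⋃ i ∈ F, Q i) < η := by
  classical
  have hanti : Antitone (fun F : Finset ι => I \ ⋃ i ∈ F, Q i) := by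
    intro F G hFG
    apply sdiff_subset_sdiff_right
    exact biUnion_subset_biUnion_left hFG
  have hm : ∀ F : Finset ι, NullMeasurableSet (I \ ⋃ i ∈ F, Q i) μ := fun F =>
    (hIm.diff (F.measurableSet_biUnion fun i _ => hQ i)).nullMeasurableSet
  have hfin : ∃ F : Finset ι, μ (I \ ⋃ i ∈ F, Q i) ≠ ∞ := ⟨∅, by simpa using hI⟩
  have hcap : (⋂ F : Finset ι, (I \ ⋃ i ∈ F, Q i)) = I \ ⋃ i, Q i := by
    ext x
    simp only [mem_iInter, mem_diff, mem_iUnion, not_exists]
    constructor
    · intro h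
      refine ⟨(h ∅).1, fun i hi => (h {i}).2 i (by simp) hi⟩
    · intro h F
      exact ⟨h.1, fun i _ hi => h.2 i hi⟩
  have := (hanti.directed_ge).measure_iInter hm hfin
  rw [hcap] at this
  rw [this, iInf_lt_iff] at hη
  exact hη

/-- a.e. point of `I` is sent by some word into the switch region. -/
lemma switch_null (h : Par β c m) :
    volume (Icc (0:ℝ) c \ ⋃ v : List (Fin (m + 1)), {x | T β v x ∈ Icc (1 / β) (c / β)}) = 0 := by
  set Z : Set ℝ := Icc (0:ℝ) c \ ⋃ v : List (Fin (m + 1)), {x | T β v x ∈ Icc (1 / β) (c / β)} with hZ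
  have hβ := h.one_lt
  have hc := h.one_lt_c
  have hpos := h.pos
  have hZm : MeasurableSet Z := by
    apply measurableSet_Icc.diff
    apply MeasurableSet.iUnion
    intro v
    exact (continuous_T β v).measurable measurableSet_Icc
  have hdens := IsUnifLocDoublingMeasure.ae_tendsto_measure_inter_div (volume : Measure ℝ) Z 1
  rw [ae_restrict_iff' hZm] at hdens
  -- every point of Z fails the density property
  have hfail : ∀ x ∈ Z, ¬ (∀ {ι : Type} {l : Filter ι} (w : ι → ℝ) (δ : ι → ℝ),
      Tendsto δ l (𝓝[>] 0) → (∀ᶠ (j : ι) in l, x ∈ Metric.closedBall (w j) (1 * δ j)) →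
        Tendsto (fun j => volume (Z ∩ Metric.closedBall (w j) (δ j)) /
          volume (Metric.closedBall (w j) (δ j))) l (𝓝 1)) := by
    intro x hx hcon
    choose v hvlen hvT using fun n => exists_word h hx.1 n
    choose y hy using fun n => T_surj hβ (v n) (c / 2)
    have hJ : ∀ n, Metric.closedBall (y n) (c / 2 * (β⁻¹) ^ n) = {z | T β (v n) z ∈ Icc 0 c} := by
      intro n
      ext z
      have h1 := T_sub β z (y n) (v n)
      rw [hy, hvlen] at h1
      have hbn : (0:ℝ) < β ^ n := pow_pos hpos n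
      simp only [Metric.mem_closedBall, Real.dist_eq, mem_setOf_eq, mem_Icc]
      have h2 : T β (v n) z = β ^ n * (z - y n) + c / 2 := by linarith
      rw [h2, inv_pow, ← div_eq_mul_inv, le_div_iff₀ hbn, mul_comm |z - y n|, ← abs_of_pos hbn,
        ← abs_mul, abs_of_pos hbn, abs_le]
      constructor
      · rintro ⟨ha, hb⟩; constructor <;> linarith
      · rintro ⟨ha, hb⟩; constructor <;> linarith
    have hδ : Tendsto (fun n : ℕ => c / 2 * (β⁻¹) ^ n) atTop (𝓝[>] 0) := by
      rw [tendsto_nhdsWithin_iff]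
      constructor
      · have := (tendsto_pow_atTop_nhds_zero_of_lt_one (inv_nonneg.mpr hpos.le)
          (inv_lt_one_of_one_lt₀ hβ)).const_mul (c / 2)
        simpa using this
      · refine Eventually.of_forall fun n => ?_
        have : 0 < β⁻¹ := inv_pos.mpr hpos
        simp only [mem_Ioi]
        positivity
    have hlim := hcon (ι := ℕ) (l := atTop) y (fun n => c / 2 * (β⁻¹) ^ n) hδ
      (Eventually.of_forall fun n => by
        rw [one_mul, hJ n]; exact hvT n)
    -- but the ratio is bounded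
    have hsub : Icc (1 / β) (c / β) ⊆ Icc (0:ℝ) c := by
      intro z hz
      constructor
      · exact le_trans (by positivity) hz.1
      · refine le_trans hz.2 ?_
        exact div_le_self (by linarith) hβ.le
    have hratio : ∀ n, volume (Z ∩ Metric.closedBall (y n) (c / 2 * (β⁻¹) ^ n)) /
        volume (Metric.closedBall (y n) (c / 2 * (β⁻¹) ^ n)) ≤
        ENNReal.ofReal (c - (c - 1) / β) / ENNReal.ofReal c := by
      intro n
      rw [hJ n]
      have hvol : volume {z | T β (v n) z ∈ Icc 0 c} = ENNReal.ofReal β⁻¹ ^ n * ENNReal.ofReal c := by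
        have := volume_preimage_T hβ (v n) (Icc 0 c)
        rw [hvlen, Real.volume_Icc, sub_zero] at this
        exact this
      have hle : volume (Z ∩ {z | T β (v n) z ∈ Icc 0 c}) ≤
          ENNReal.ofReal β⁻¹ ^ n * ENNReal.ofReal (c - (c - 1) / β) := by
        have hss : Z ∩ {z | T β (v n) z ∈ Icc 0 c} ⊆
            T β (v n) ⁻¹' (Icc 0 c \ Icc (1 / β) (c / β)) := by
          rintro z ⟨hz1, hz2⟩
          refine ⟨hz2, fun hz3 => ?_⟩
          exact hz1.2 (mem_iUnion.mpr ⟨v n, hz3⟩)
        refine (measure_mono hss).trans ?_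
        rw [volume_preimage_T hβ, hvlen]
        gcongr
        rw [measure_sdiff hsub measurableSet_Icc.nullMeasurableSet (by simp)]
        rw [Real.volume_Icc, Real.volume_Icc, ← ENNReal.ofReal_sub]
        · apply ENNReal.ofReal_le_ofReal
          rw [sub_zero, ← sub_div]
        · rw [← sub_div]; exact div_nonneg (by linarith) hpos.le
      rw [hvol]
      have hb0 : ENNReal.ofReal β⁻¹ ^ n ≠ 0 := by
        apply pow_ne_zero
        simp [hpos]
      have hbt : ENNReal.ofReal β⁻¹ ^ n ≠ ∞ := ENNReal.pow_ne_top ENNReal.ofReal_ne_top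
      calc _ ≤ (ENNReal.ofReal β⁻¹ ^ n * ENNReal.ofReal (c - (c - 1) / β)) /
            (ENNReal.ofReal β⁻¹ ^ n * ENNReal.ofReal c) := by gcongr
        _ = _ := ENNReal.mul_div_mul_left _ _ hb0 hbt
    have hle1 : (1:ℝ≥0∞) ≤ ENNReal.ofReal (c - (c - 1) / β) / ENNReal.ofReal c :=
      le_of_tendsto hlim (Eventually.of_forall hratio)
    rw [← ENNReal.ofReal_div_of_pos (by linarith), ENNReal.one_le_ofReal,
      one_le_div (by linarith)] at hle1
    have : 0 < (c - 1) / β := div_pos (by linarith) hpos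
    linarith
  -- conclude
  have hnull : ∀ᵐ x ∂(volume : Measure ℝ), x ∉ Z := by
    filter_upwards [hdens] with x hx hxZ
    exact hfail x hxZ (hx hxZ)
  exact measure_eq_zero_iff_ae_notMem.mpr hnull

end Pool.Agent.Lib.MP_d4a354_an
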