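import Pool.Agent.Lib.MP_d4a354_an.Concat

open MeasureTheory Set Filter Topology
open scoped ENNReal

namespace Pool.Agent.Lib.MP_d4a354_an

variable {m : ℕ} {β c : ℝ}

/-- The tree of expansions of a point that stays in good sets. -/
lemma tree (h : Par β c m) {pU pL : Fin (m + 1) → ℝ} (P : ℕ → Finset (List (Fin (m + 1))))
    (Gd : ℕ → Set ℝ) (hGd : ∀ i, Gd i ⊆ Icc 0 c) (δ : ℕ → ℝ) (D N b : ℕ → ℕ)
    (hδ : ∀ j, 0 < δ j ∧ δ j ≤ 1 / ((j : ℝ) + 1))
    (hb : ∀ i, ∀ p ∈ P i, Blk pU pL (δ i) (D i) (N i) p)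
    (hN : ∀ i, (i + 1) * ((∑ l ∈ Finset.range (i + 2), D l) + b i) ≤ N i)
    (hN1 : ∀ i, i + 1 ≤ N i)
    (hbM : ∀ i, ∀ p ∈ P i, b i + p.length ≤ b (i + 1))
    (hstep : ∀ i, ∀ x ∈ Gd i, ∃ p ∈ P i, ∃ q ∈ P i, Incomp p q ∧
      T β p x ∈ Gd (i + 1) ∧ T β q x ∈ Gd (i + 1))
    (i0 : ℕ) (x : ℝ) (hx : x ∈ Gd i0) :
    ∃ f : (ℕ → Bool) → (ℕ → Fin (m + 1)), Function.Injective f ∧
      ∀ s, IsSum β (f s) x ∧ FreqOK pU pL (f s) := by
  have hsf : ∀ (i : ℕ) (y : ℝ), ∃ sf : Bool → List (Fin (m + 1)), y ∈ Gd i →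
      (∀ t, sf t ∈ P i ∧ T β (sf t) y ∈ Gd (i + 1)) ∧ Incomp (sf false) (sf true) := by
    intro i y
    by_cases hy : y ∈ Gd i
    · obtain ⟨p, hp, q, hq, hpq, hTp, hTq⟩ := hstep i y hy
      refine ⟨fun t => if t then q else p, fun _ => ⟨?_, ?_⟩⟩
      · intro t
        cases t
        · simp [hp, hTp]
        · simp [hq, hTq]
      · simpa using hpq
    · exact ⟨fun _ => [], fun hy' => absurd hy' hy⟩
  choose sf hsf using hsf
  -- states and words
  let st : (ℕ → Bool) → ℕ → ℝ := fun s j =>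
    Nat.rec x (fun j y => T β (sf (i0 + j) y (s j)) y) j
  have st0 : ∀ s, st s 0 = x := fun s => rfl
  have stS : ∀ s j, st s (j + 1) = T β (sf (i0 + j) (st s j) (s j)) (st s j) := fun s j => rfl
  let wd : (ℕ → Bool) → ℕ → List (Fin (m + 1)) := fun s j => sf (i0 + j) (st s j) (s j)
  let W : (ℕ → Bool) → ℕ → List (Fin (m + 1)) := fun s j =>
    Nat.rec [] (fun j V => V ++ wd s j) j
  have W0 : ∀ s, W s 0 = [] := fun s => rfl
  have WS : ∀ s j, W s (j + 1) = W s j ++ wd s j := fun s j => rfl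
  have hst : ∀ s j, st s j ∈ Gd (i0 + j) := by
    intro s j
    induction j with
    | zero => rw [st0]; simpa using hx
    | succ j ih =>
      rw [stS]
      exact ((hsf (i0 + j) (st s j) ih).1 (s j)).2
  have hwd : ∀ s j, wd s j ∈ P (i0 + j) := fun s j =>
    ((hsf (i0 + j) (st s j) (hst s j)).1 (s j)).1
  have hTW : ∀ s j, T β (W s j) x = st s j := by
    intro s j
    induction j with
    | zero => rw [W0, st0]; simp
    | succ j ih => rw [WS, T_append, ih, stS]
  have hblk : ∀ s j, Blk pU pL (δ (i0 + j)) (D (i0 + j)) (N (i0 + j)) (wd s j) := fun s j =>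
    hb _ _ (hwd s j)
  have hwdlen : ∀ s j, 1 ≤ (wd s j).length := by
    intro s j
    have h1 := (hblk s j).le_length
    have h2 := hN1 (i0 + j)
    omega
  have hWb : ∀ s j, (W s j).length ≤ b (i0 + j) := by
    intro s j
    induction j with
    | zero => rw [W0]; simp
    | succ j ih =>
      rw [WS, List.length_append]
      have := hbM (i0 + j) _ (hwd s j)
      have e : i0 + (j + 1) = i0 + j + 1 := by omega
      rw [e]
      omega
  choose f hf using fun s => exists_concat (wd s) (W s) (W0 s) (WS s) (hwdlen s)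
  have hlen : ∀ s j, j ≤ (W s j).length := by
    intro s j
    induction j with
    | zero => simp
    | succ j ih => rw [WS, List.length_append]; have := hwdlen s j; omega
  refine ⟨f, ?_, ?_⟩
  · -- injectivity
    intro s s' hss
    by_contra hne
    have hex : ∃ j, s j ≠ s' j := by
      by_contra hcon
      push Not at hcon
      exact hne (funext hcon)
    classical
    obtain ⟨j, hj, hjmin⟩ : ∃ j, s j ≠ s' j ∧ ∀ i < j, s i = s' i :=
      ⟨Nat.find hex, Nat.find_spec hex, fun i hi => by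
        have := Nat.find_min hex hi
        push Not at this
        exact this⟩
    have heq : ∀ i ≤ j, st s i = st s' i ∧ W s i = W s' i := by
      intro i
      induction i with
      | zero => intro _; exact ⟨by rw [st0, st0], by rw [W0, W0]⟩
      | succ i ih =>
        intro hi
        obtain ⟨h1, h2⟩ := ih (by omega)
        have h3 := hjmin i (by omega)
        refine ⟨?_, ?_⟩
        · rw [stS, stS, h1, h3]
        · rw [WS, WS, h2]
          simp only [wd]
          rw [h1, h3]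
    obtain ⟨h1, h2⟩ := heq j le_rfl
    have hinc := (hsf (i0 + j) (st s j) (hst s j)).2
    have hdiff : Incomp (wd s j) (wd s' j) := by
      simp only [wd]
      rw [← h1]
      obtain ⟨t, a, a', ha, ha', haa⟩ := hinc
      cases hs : s j <;> cases hs' : s' j
      · exact absurd (hs.trans hs'.symm) hj
      · exact ⟨t, a, a', ha, ha', haa⟩
      · exact ⟨t, a', a, ha', ha, haa.symm⟩
      · exact absurd (hs.trans hs'.symm) hj
    obtain ⟨t, a, a', ha, ha', haa⟩ := hdiff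
    have key : ∀ (s : ℕ → Bool) (a : Fin (m + 1)), (wd s j)[t]? = some a →
        f s ((W s j).length + t) = a := by
      intro s a ha
      have ht : t < (wd s j).length := by
        by_contra hcon
        push Not at hcon
        rw [List.getElem?_eq_none hcon] at ha
        exact absurd ha (by simp)
      have h3 := hf s (j + 1)
      have h4 : (W s (j + 1))[(W s j).length + t]? = some a := by
        rw [WS, List.getElem?_append_right (by omega)]
        simpa using ha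
      rw [← h3] at h4
      have h5 : (W s j).length + t < (W s (j + 1)).length := by
        rw [WS, List.length_append]; omega
      simp only [pre, List.getElem?_map] at h4
      rw [List.getElem?_range h5] at h4
      simpa using h4
    have e1 := key s a ha
    have e2 := key s' a' ha'
    rw [← h2, ← hss] at e2
    exact haa (e1.symm.trans e2)
  · intro s
    constructor
    · apply isSum_of_frequently h
      intro n
      refine ⟨(W s n).length, hlen s n, ?_⟩
      rw [hf s n, hTW]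
      exact hGd _ (hst s n)
    · refine freq_concat (wd s) (W s) (W0 s) (WS s) (f s) (hf s) (fun j => δ (i0 + j))
        (fun j => D (i0 + j)) (fun j => N (i0 + j)) ?_ (hblk s) ?_ ?_
      · intro j
        refine ⟨(hδ _).1, (hδ _).2.trans ?_⟩
        apply one_div_le_one_div_of_le (by positivity)
        push_cast
        linarith [show (0:ℝ) ≤ i0 by positivity]
      · intro j
        refine le_trans ?_ (hN (i0 + j))
        have h1 : ∑ l ∈ Finset.range (j + 2), D (i0 + l) ≤ ∑ l ∈ Finset.range (i0 + j + 2), D l := by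
          have h3 : ∑ l ∈ Finset.range (i0 + (j + 2)), D l = ∑ l ∈ Finset.range i0, D l +
              ∑ l ∈ Finset.range (j + 2), D (i0 + l) := Finset.sum_range_add D i0 (j + 2)
          rw [add_assoc i0 j 2, h3]
          exact Nat.le_add_left _ _
        have h2 := hWb s j
        apply Nat.mul_le_mul
        · omega
        · exact Nat.add_le_add h1 h2
      · intro j
        have := hN1 (i0 + j)
        omega

theorem main (h : Par β c m) {pU pL : Fin (m + 1) → ℝ} (hE : AEHas β c pU pL) :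
    ∀ᵐ x ∂(volume.restrict (Icc (0:ℝ) c)), ∃ f : (ℕ → Bool) → (ℕ → Fin (m + 1)),
      Function.Injective f ∧ ∀ s, IsSum β (f s) x ∧ FreqOK pU pL (f s) := by
  classical
  set δ : ℕ → ℝ := fun i => 1 / ((i : ℝ) + 1) with hδdef
  have hδ0 : ∀ i, 0 < δ i := fun i => by simp only [hδdef]; positivity
  have hst : ∀ (i : ℕ) (η : ℝ≥0∞), ∃ (C : ℝ≥0∞) (D : ℕ), 1 ≤ C ∧ C ≠ ∞ ∧ (0 < η → ∀ N : ℕ,
      ∃ P : Finset (List (Fin (m + 1))),
      (∀ S : Set ℝ, volume (⋃ p ∈ P, T β p ⁻¹' S) ≤ C * volume S) ∧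
      (∀ p ∈ P, Blk pU pL (δ i) D N p) ∧
      ∃ B : Set ℝ, volume B ≤ η ∧ ∀ x ∈ Icc (0:ℝ) c, x ∉ B → ∃ p ∈ P, ∃ q ∈ P, Incomp p q ∧
        T β p x ∈ Icc (0:ℝ) c ∧ T β q x ∈ Icc (0:ℝ) c) := by
    intro i η
    by_cases hη : 0 < η
    · obtain ⟨C, D, h1, h2, h3⟩ := stage h hE (hδ0 i) hη
      exact ⟨C, D, h1, h2, fun _ => h3⟩
    · exact ⟨1, 0, le_rfl, ENNReal.one_ne_top, fun h0 => absurd h0 hη⟩
  choose C D hC1 hCt hP using hst
  -- the products of constants
  let a : ℕ → ℝ≥0∞ := fun i => Nat.rec 1 (fun i ai => ai * C i ((2⁻¹) ^ i / ai)) i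
  have a0 : a 0 = 1 := rfl
  let η : ℕ → ℝ≥0∞ := fun i => (2⁻¹) ^ i / a i
  have aS : ∀ i, a (i + 1) = a i * C i (η i) := fun i => rfl
  have ha : ∀ i, 1 ≤ a i ∧ a i ≠ ∞ := by
    intro i
    induction i with
    | zero => rw [a0]; exact ⟨le_rfl, ENNReal.one_ne_top⟩
    | succ i ih =>
      rw [aS]
      exact ⟨one_le_mul_of_one_le_of_one_le ih.1 (hC1 i _), ENNReal.mul_ne_top ih.2 (hCt i _)⟩
  have hη0 : ∀ i, 0 < η i := by
    intro i
    apply ENNReal.div_pos _ (ha i).2
    apply pow_ne_zero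
    simp
  have hP' : ∀ (i N : ℕ), ∃ P : Finset (List (Fin (m + 1))),
      (∀ S : Set ℝ, volume (⋃ p ∈ P, T β p ⁻¹' S) ≤ C i (η i) * volume S) ∧
      (∀ p ∈ P, Blk pU pL (δ i) (D i (η i)) N p) ∧
      ∃ B : Set ℝ, volume B ≤ η i ∧ ∀ x ∈ Icc (0:ℝ) c, x ∉ B → ∃ p ∈ P, ∃ q ∈ P, Incomp p q ∧
        T β p x ∈ Icc (0:ℝ) c ∧ T β q x ∈ Icc (0:ℝ) c := fun i N => hP i (η i) (hη0 i) N
  choose Pf hPf1 hPf2 B hB hPf3 using hP'
  let SD : ℕ → ℕ := fun i => ∑ l ∈ Finset.range (i + 2), D l (η l)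
  let b : ℕ → ℕ := fun i => Nat.rec 0 (fun i bi => bi + (Pf i ((i + 1) * (SD i + bi + 1))).sup
    List.length) i
  let N : ℕ → ℕ := fun i => (i + 1) * (SD i + b i + 1)
  have bS : ∀ i, b (i + 1) = b i + (Pf i (N i)).sup List.length := fun i => rfl
  let P : ℕ → Finset (List (Fin (m + 1))) := fun i => Pf i (N i)
  let Bd : ℕ → Set ℝ := fun i => B i (N i)
  -- bad sets
  let R : ℕ → ℕ → Set ℝ := fun j => Nat.rec (fun i => Bd i)
    (fun _ Rj i => ⋃ p ∈ P i, T β p ⁻¹' (Rj (i + 1))) j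
  have R0 : ∀ i, R 0 i = Bd i := fun i => rfl
  have RS : ∀ j i, R (j + 1) i = ⋃ p ∈ P i, T β p ⁻¹' (R j (i + 1)) := fun j i => rfl
  have hR : ∀ j i, a i * volume (R j i) ≤ (2⁻¹) ^ (i + j) := by
    intro j
    induction j with
    | zero =>
      intro i
      rw [R0, add_zero]
      calc a i * volume (Bd i) ≤ a i * η i := by gcongr; exact hB i (N i)
        _ = (2⁻¹) ^ i := ENNReal.mul_div_cancel (by
            have := (ha i).1
            exact (lt_of_lt_of_le one_pos this).ne') (ha i).2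
    | succ j ih =>
      intro i
      rw [RS]
      calc a i * volume (⋃ p ∈ P i, T β p ⁻¹' (R j (i + 1)))
          ≤ a i * (C i (η i) * volume (R j (i + 1))) := by
            gcongr; exact hPf1 i (N i) _
        _ = a (i + 1) * volume (R j (i + 1)) := by rw [aS, mul_assoc]
        _ ≤ (2⁻¹) ^ (i + 1 + j) := ih (i + 1)
        _ = (2⁻¹) ^ (i + (j + 1)) := by congr 1; omega
  have hR' : ∀ j i, volume (R j i) ≤ (2⁻¹) ^ (i + j) := by
    intro j i
    refine le_trans ?_ (hR j i)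
    calc volume (R j i) = 1 * volume (R j i) := (one_mul _).symm
      _ ≤ a i * volume (R j i) := by gcongr; exact (ha i).1
  let Gd : ℕ → Set ℝ := fun i => {x | x ∈ Icc (0:ℝ) c ∧ ∀ j, x ∉ R j i}
  have hGdnull : volume (Icc (0:ℝ) c \ ⋃ i, Gd i) = 0 := by
    have hle : ∀ i : ℕ, volume (Icc (0:ℝ) c \ ⋃ i, Gd i) ≤ (2⁻¹) ^ i * 2 := by
      intro i
      have hsub : (Icc (0:ℝ) c \ ⋃ i, Gd i) ⊆ ⋃ j, R j i := by
        intro x hx
        by_contra hcon
        apply hx.2
        rw [mem_iUnion]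
        refine ⟨i, hx.1, fun j hj => hcon (mem_iUnion.mpr ⟨j, hj⟩)⟩
      refine (measure_mono hsub).trans ((measure_iUnion_le _).trans ?_)
      calc ∑' j, volume (R j i) ≤ ∑' j : ℕ, (2⁻¹ : ℝ≥0∞) ^ (i + j) :=
            ENNReal.tsum_le_tsum fun j => hR' j i
        _ = ∑' j : ℕ, (2⁻¹ : ℝ≥0∞) ^ i * (2⁻¹) ^ j := by simp only [pow_add]
        _ = (2⁻¹) ^ i * 2 := by
            rw [ENNReal.tsum_mul_left, ENNReal.tsum_geometric, ENNReal.one_sub_inv_two, inv_inv]
    have hlim : Tendsto (fun i : ℕ => (2⁻¹ : ℝ≥0∞) ^ i * 2) atTop (𝓝 0) := by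
      have h1 := ENNReal.tendsto_pow_atTop_nhds_zero_of_lt_one
        (r := (2⁻¹ : ℝ≥0∞)) (by rw [ENNReal.inv_lt_one]; exact ENNReal.one_lt_two)
      have h2 := ENNReal.Tendsto.mul_const (b := 2) h1 (Or.inr (by simp))
      simpa using h2
    exact le_antisymm (ge_of_tendsto' hlim hle) zero_le
  have hstep : ∀ i, ∀ x ∈ Gd i, ∃ p ∈ P i, ∃ q ∈ P i, Incomp p q ∧
      T β p x ∈ Gd (i + 1) ∧ T β q x ∈ Gd (i + 1) := by
    intro i x hx
    obtain ⟨p, hp, q, hq, hpq, hTp, hTq⟩ := hPf3 i (N i) x hx.1 (hx.2 0)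
    have key : ∀ p ∈ P i, T β p x ∈ Icc (0:ℝ) c → T β p x ∈ Gd (i + 1) := by
      intro p hp hTp
      refine ⟨hTp, fun j hj => hx.2 (j + 1) ?_⟩
      rw [RS]
      exact mem_iUnion₂.mpr ⟨p, hp, hj⟩
    exact ⟨p, hp, q, hq, hpq, key p hp hTp, key q hq hTq⟩
  rw [ae_restrict_iff' measurableSet_Icc]
  rw [measure_eq_zero_iff_ae_notMem] at hGdnull
  filter_upwards [hGdnull] with x hx hxI
  have hx' : ∃ i0, x ∈ Gd i0 := by
    refine Classical.byContradiction fun hcon => hx ⟨hxI, fun hx2 => ?_⟩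
    obtain ⟨i, hi⟩ := mem_iUnion.mp hx2
    exact hcon ⟨i, hi⟩
  obtain ⟨i0, hi0⟩ := hx'
  refine tree h P Gd (fun i y hy => hy.1) δ (fun i => D i (η i)) N b ?_ ?_ ?_ ?_ ?_ hstep i0 x hi0
  · intro j
    exact ⟨hδ0 j, le_rfl⟩
  · intro i p hp
    exact hPf2 i (N i) p hp
  · intro i
    change (i + 1) * (SD i + b i) ≤ (i + 1) * (SD i + b i + 1)
    exact Nat.mul_le_mul_left _ (Nat.le_succ _)
  · intro i
    change i + 1 ≤ (i + 1) * (SD i + b i + 1)
    calc i + 1 = (i + 1) * 1 := (mul_one _).symm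
      _ ≤ (i + 1) * (SD i + b i + 1) := Nat.mul_le_mul_left _ (by omega)
  · intro i p hp
    rw [bS]
    have : p.length ≤ (Pf i (N i)).sup List.length := Finset.le_sup (f := List.length) hp
    omega

end Pool.Agent.Lib.MP_d4a354_an
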