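import Pool.Agent.Lib.MP_d4a354_an.VitaliWords

open MeasureTheory Set Filter Topology
open scoped ENNReal

namespace Pool.Agent.Lib.MP_d4a354_an

variable {m : ℕ} {β c : ℝ}

/-- The number of `i < n` with `ε i = k`. -/
def cnt (ε : ℕ → Fin (m + 1)) (k : Fin (m + 1)) (n : ℕ) : ℕ :=
  ((Finset.range n).filter (fun i => ε i = k)).card

/-- The prefix of length `n`. -/
def pre (ε : ℕ → Fin (m + 1)) (n : ℕ) : List (Fin (m + 1)) := (List.range n).map ε

@[simp] lemma length_pre (ε : ℕ → Fin (m + 1)) (n : ℕ) : (pre ε n).length = n := by simp [pre]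

lemma pre_succ (ε : ℕ → Fin (m + 1)) (n : ℕ) : pre ε (n + 1) = pre ε n ++ [ε n] := by
  simp [pre, List.range_succ]

lemma pre_succ' (ε : ℕ → Fin (m + 1)) (n : ℕ) :
    pre ε (n + 1) = ε 0 :: pre (fun i => ε (i + 1)) n := by
  simp [pre, List.range_succ_eq_map, Function.comp_def]

lemma take_pre (ε : ℕ → Fin (m + 1)) {r n : ℕ} (h : r ≤ n) : (pre ε n).take r = pre ε r := by
  simp [pre, ← List.map_take, List.take_range, min_eq_left h]

lemma count_pre (ε : ℕ → Fin (m + 1)) (k : Fin (m + 1)) (n : ℕ) :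
    (pre ε n).count k = cnt ε k n := by
  induction n with
  | zero => simp [pre, cnt]
  | succ n ih =>
    rw [pre_succ, List.count_append, ih, cnt, cnt, Finset.range_add_one, Finset.filter_insert]
    by_cases hk : ε n = k
    · simp [hk]
    · simp [hk]

lemma cnt_le (ε : ℕ → Fin (m + 1)) (k : Fin (m + 1)) (n : ℕ) : cnt ε k n ≤ n := by
  unfold cnt
  calc _ ≤ (Finset.range n).card := Finset.card_filter_le _ _
    _ = n := by simp

/-- `x` is the value of the `β`-expansion `ε`. -/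
def IsSum (β : ℝ) (ε : ℕ → Fin (m + 1)) (x : ℝ) : Prop :=
  HasSum (fun i : ℕ => ((ε i : ℕ) : ℝ) / β ^ (i + 1)) x

lemma IsSum.shift (h : Par β c m) {ε : ℕ → Fin (m + 1)} {x : ℝ} (hx : IsSum β ε x) :
    IsSum β (fun i => ε (i + 1)) (β * x - ((ε 0 : ℕ) : ℝ)) := by
  have hpos := h.pos
  unfold IsSum at hx ⊢
  have h1 := (hasSum_nat_add_iff' 1).mpr hx
  have h2 := h1.mul_left β
  simp only [Finset.range_one, Finset.sum_singleton, zero_add, pow_one] at h2
  have e1 : β * (x - ((ε 0 : ℕ) : ℝ) / β) = β * x - ((ε 0 : ℕ) : ℝ) := by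
    field_simp
  rw [e1] at h2
  refine h2.congr_fun ?_ |> fun h => h
  intro i
  simp only
  rw [pow_succ β (i + 1)]
  field_simp

lemma hasSum_c (h : Par β c m) : HasSum (fun i : ℕ => (m : ℝ) / β ^ (i + 1)) c := by
  have hpos := h.pos
  have hβ := h.one_lt
  have h1 := (hasSum_geometric_of_lt_one (inv_nonneg.mpr hpos.le)
    (inv_lt_one_of_one_lt₀ hβ)).mul_left ((m : ℝ) / β)
  have h3 := h.eq
  have e1 : (m : ℝ) / β * (1 - β⁻¹)⁻¹ = c := by
    have hne : β - 1 ≠ 0 := by linarith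
    have : (1 - β⁻¹) = (β - 1) / β := by field_simp
    rw [this, inv_div]
    have hm : (m : ℝ) = c * (β - 1) := by linarith
    rw [hm]
    field_simp
  rw [e1] at h1
  refine h1.congr_fun ?_ |> fun h => h
  intro i
  rw [inv_pow, pow_succ]
  field_simp

lemma IsSum.mem (h : Par β c m) {ε : ℕ → Fin (m + 1)} {x : ℝ} (hx : IsSum β ε x) :
    x ∈ Icc 0 c := by
  have hpos := h.pos
  constructor
  · exact HasSum.nonneg (fun i => by positivity) hx
  · refine hasSum_le (fun i => ?_) hx (hasSum_c h)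
    have hd : (((ε i) : ℕ) : ℝ) ≤ m := by exact_mod_cast Nat.lt_succ_iff.mp (ε i).2
    gcongr

lemma IsSum.T_mem (h : Par β c m) {ε : ℕ → Fin (m + 1)} {x : ℝ} (hx : IsSum β ε x) (n : ℕ) :
    T β (pre ε n) x ∈ Icc 0 c := by
  induction n generalizing ε x with
  | zero => simpa [pre] using hx.mem h
  | succ n ih =>
    rw [pre_succ', T_cons]
    exact ih (hx.shift h)

lemma isSum_of_frequently (h : Par β c m) {ε : ℕ → Fin (m + 1)} {x : ℝ}
    (hx : ∀ N, ∃ n, N ≤ n ∧ T β (pre ε n) x ∈ Icc 0 c) : IsSum β ε x := by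
  have hpos := h.pos
  have hβ := h.one_lt
  have hc := h.one_lt_c
  have hsum : Summable (fun i : ℕ => ((ε i : ℕ) : ℝ) / β ^ (i + 1)) := by
    refine Summable.of_nonneg_of_le (fun i => by positivity) (fun i => ?_) (hasSum_c h).summable
    have hd : (((ε i) : ℕ) : ℝ) ≤ m := by exact_mod_cast Nat.lt_succ_iff.mp (ε i).2
    gcongr
  obtain ⟨S, hS⟩ := hsum
  have hSx : S = x := by
    have ht : Tendsto (fun n : ℕ => c * (β⁻¹) ^ n) atTop (𝓝 0) := by
      have := (tendsto_pow_atTop_nhds_zero_of_lt_one (inv_nonneg.mpr hpos.le)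
        (inv_lt_one_of_one_lt₀ hβ)).const_mul c
      simpa using this
    by_contra hne
    have hd : 0 < |S - x| := abs_pos.mpr (sub_ne_zero.mpr hne)
    obtain ⟨N, hN⟩ := ((ht.eventually (gt_mem_nhds hd)).and (eventually_ge_atTop 0)).exists_forall_of_atTop
    obtain ⟨n, hn, hT⟩ := hx N
    have h1 := (hN n hn).1
    have h2 := abs_sub_le_of_mem_J (w := pre ε n) h
      (show S ∈ J β c (pre ε n) from IsSum.T_mem h hS n) (show x ∈ J β c (pre ε n) from hT)
    rw [length_pre] at h2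
    linarith
  rw [← hSx]
  exact hS

end Pool.Agent.Lib.MP_d4a354_an
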