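import Pool.Agent.Lib.MP_d4a354_an.Seq

open MeasureTheory Set Filter Topology
open scoped ENNReal

namespace Pool.Agent.Lib.MP_d4a354_an

variable {m : ℕ} {β c : ℝ}

/-- Words with controlled frequencies. -/
def Good (pU pL : Fin (m + 1) → ℝ) (δ : ℝ) (K N : ℕ) (w : List (Fin (m + 1))) : Prop :=
  (∀ n : ℕ, K ≤ n → n ≤ w.length → ∀ k, (pL k - δ) * n ≤ ((w.take n).count k : ℝ) ∧
    ((w.take n).count k : ℝ) ≤ (pU k + δ) * n) ∧
  (∀ k, ∃ n : ℕ, N ≤ n ∧ n ≤ w.length ∧ (pU k - δ) * n ≤ ((w.take n).count k : ℝ)) ∧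
  (∀ k, ∃ n : ℕ, N ≤ n ∧ n ≤ w.length ∧ ((w.take n).count k : ℝ) ≤ (pL k + δ) * n)

lemma Good.mono_N {pU pL : Fin (m + 1) → ℝ} {δ : ℝ} {K N N' : ℕ} {w : List (Fin (m + 1))}
    (h : Good pU pL δ K N' w) (hN : N ≤ N') : Good pU pL δ K N w := by
  refine ⟨h.1, fun k => ?_, fun k => ?_⟩
  · obtain ⟨n, h1, h2, h3⟩ := h.2.1 k
    exact ⟨n, hN.trans h1, h2, h3⟩
  · obtain ⟨n, h1, h2, h3⟩ := h.2.2 k
    exact ⟨n, hN.trans h1, h2, h3⟩

lemma Good.mono_K {pU pL : Fin (m + 1) → ℝ} {δ : ℝ} {K K' N : ℕ} {w : List (Fin (m + 1))}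
    (h : Good pU pL δ K N w) (hK : K ≤ K') : Good pU pL δ K' N w :=
  ⟨fun n hn => h.1 n (hK.trans hn), h.2.1, h.2.2⟩

lemma Good.le_length {pU pL : Fin (m + 1) → ℝ} {δ : ℝ} {K N : ℕ} {w : List (Fin (m + 1))}
    (h : Good pU pL δ K N w) : N ≤ w.length := by
  obtain ⟨n, h1, h2, _⟩ := h.2.1 0
  exact h1.trans h2

/-- The upper and lower digit frequencies of `ε` are `pU` and `pL`. -/
def FreqOK (pU pL : Fin (m + 1) → ℝ) (ε : ℕ → Fin (m + 1)) : Prop :=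
  ∀ k, limsup (fun n : ℕ => (cnt ε k n : ℝ) / n) atTop = pU k ∧
    liminf (fun n : ℕ => (cnt ε k n : ℝ) / n) atTop = pL k

lemma freq_nonneg (ε : ℕ → Fin (m + 1)) (k : Fin (m + 1)) (n : ℕ) : 0 ≤ (cnt ε k n : ℝ) / n := by
  positivity

lemma freq_le_one (ε : ℕ → Fin (m + 1)) (k : Fin (m + 1)) (n : ℕ) : (cnt ε k n : ℝ) / n ≤ 1 := by
  apply div_le_one_of_le₀
  · exact_mod_cast cnt_le ε k n
  · positivity

lemma bdd_above (ε : ℕ → Fin (m + 1)) (k : Fin (m + 1)) :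
    IsBoundedUnder (· ≤ ·) atTop (fun n : ℕ => (cnt ε k n : ℝ) / n) :=
  isBoundedUnder_of ⟨1, freq_le_one ε k⟩

lemma bdd_below (ε : ℕ → Fin (m + 1)) (k : Fin (m + 1)) :
    IsBoundedUnder (· ≥ ·) atTop (fun n : ℕ => (cnt ε k n : ℝ) / n) :=
  isBoundedUnder_of ⟨0, freq_nonneg ε k⟩

/-- The arithmetic form of `FreqOK`. -/
lemma FreqOK.arith {pU pL : Fin (m + 1) → ℝ} {ε : ℕ → Fin (m + 1)} (h : FreqOK pU pL ε) {δ : ℝ}
    (hδ : 0 < δ) (k : Fin (m + 1)) :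
    (∀ᶠ n : ℕ in atTop, (pL k - δ) * n ≤ (cnt ε k n : ℝ) ∧ (cnt ε k n : ℝ) ≤ (pU k + δ) * n) ∧
    (∃ᶠ n : ℕ in atTop, (pU k - δ) * n ≤ (cnt ε k n : ℝ)) ∧
    (∃ᶠ n : ℕ in atTop, (cnt ε k n : ℝ) ≤ (pL k + δ) * n) := by
  have hU : limsup (fun n : ℕ => (cnt ε k n : ℝ) / n) atTop < pU k + δ := by
    rw [(h k).1]; linarith
  have hU' : pU k - δ < limsup (fun n : ℕ => (cnt ε k n : ℝ) / n) atTop := by
    rw [(h k).1]; linarith
  have hL : liminf (fun n : ℕ => (cnt ε k n : ℝ) / n) atTop < pL k + δ := by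
    rw [(h k).2]; linarith
  have hL' : pL k - δ < liminf (fun n : ℕ => (cnt ε k n : ℝ) / n) atTop := by
    rw [(h k).2]; linarith
  have e1 := eventually_lt_of_limsup_lt hU (bdd_above ε k)
  have e2 := eventually_lt_of_lt_liminf hL' (bdd_below ε k)
  have f1 := frequently_lt_of_lt_limsup (bdd_below ε k).isCoboundedUnder_le hU'
  have f2 := frequently_lt_of_liminf_lt (bdd_above ε k).isCoboundedUnder_ge hL
  have g := eventually_gt_atTop (0 : ℕ)
  refine ⟨?_, ?_, ?_⟩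
  · filter_upwards [e1, e2, g] with n h1 h2 h3
    have h3' : (0:ℝ) < n := by exact_mod_cast h3
    rw [div_lt_iff₀ h3'] at h1
    rw [lt_div_iff₀ h3'] at h2
    exact ⟨h2.le, h1.le⟩
  · refine (f1.and_eventually g).mono ?_
    rintro n ⟨h1, h3⟩
    have h3' : (0:ℝ) < n := by exact_mod_cast h3
    rw [lt_div_iff₀ h3'] at h1
    exact h1.le
  · refine (f2.and_eventually g).mono ?_
    rintro n ⟨h1, h3⟩
    have h3' : (0:ℝ) < n := by exact_mod_cast h3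
    rw [div_lt_iff₀ h3'] at h1
    exact h1.le

lemma freqOK_of_arith {pU pL : Fin (m + 1) → ℝ} {ε : ℕ → Fin (m + 1)}
    (h : ∀ k, ∀ δ : ℝ, 0 < δ →
      (∀ᶠ n : ℕ in atTop, (pL k - δ) * n ≤ (cnt ε k n : ℝ) ∧ (cnt ε k n : ℝ) ≤ (pU k + δ) * n) ∧
      (∃ᶠ n : ℕ in atTop, (pU k - δ) * n ≤ (cnt ε k n : ℝ)) ∧
      (∃ᶠ n : ℕ in atTop, (cnt ε k n : ℝ) ≤ (pL k + δ) * n)) : FreqOK pU pL ε := by
  intro k
  have g := eventually_gt_atTop (0 : ℕ)
  constructor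
  · apply le_antisymm
    · apply le_of_forall_pos_le_add
      intro δ hδ
      apply limsup_le_of_le (bdd_below ε k).isCoboundedUnder_le
      filter_upwards [(h k δ hδ).1, g] with n h1 h3
      have h3' : (0:ℝ) < n := by exact_mod_cast h3
      rw [div_le_iff₀ h3']
      exact h1.2
    · apply le_of_forall_pos_le_add
      intro δ hδ
      have : pU k - δ ≤ limsup (fun n : ℕ => (cnt ε k n : ℝ) / n) atTop := by
        apply le_limsup_of_frequently_le _ (bdd_above ε k)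
        refine ((h k δ hδ).2.1.and_eventually g).mono ?_
        rintro n ⟨h1, h3⟩
        have h3' : (0:ℝ) < n := by exact_mod_cast h3
        rw [le_div_iff₀ h3']
        exact h1
      linarith
  · apply le_antisymm
    · apply le_of_forall_pos_le_add
      intro δ hδ
      apply liminf_le_of_frequently_le _ (bdd_below ε k)
      refine ((h k δ hδ).2.2.and_eventually g).mono ?_
      rintro n ⟨h1, h3⟩
      have h3' : (0:ℝ) < n := by exact_mod_cast h3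
      rw [div_le_iff₀ h3']
      exact h1
    · apply le_of_forall_pos_le_add
      intro δ hδ
      have : pL k - δ ≤ liminf (fun n : ℕ => (cnt ε k n : ℝ) / n) atTop := by
        apply le_liminf_of_le (bdd_above ε k).isCoboundedUnder_ge
        filter_upwards [(h k δ hδ).1, g] with n h1 h3
        have h3' : (0:ℝ) < n := by exact_mod_cast h3
        rw [le_div_iff₀ h3']
        exact h1.1
      linarith

lemma FreqOK.exists_good {pU pL : Fin (m + 1) → ℝ} {ε : ℕ → Fin (m + 1)} (h : FreqOK pU pL ε)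
    {δ : ℝ} (hδ : 0 < δ) : ∃ K, ∀ N, ∃ n0, Good pU pL δ K N (pre ε n0) := by
  have h1 : ∀ᶠ n : ℕ in atTop, ∀ k, (pL k - δ) * n ≤ (cnt ε k n : ℝ) ∧
      (cnt ε k n : ℝ) ≤ (pU k + δ) * n := by
    rw [eventually_all]
    exact fun k => (h.arith hδ k).1
  obtain ⟨K, hK⟩ := eventually_atTop.mp h1
  refine ⟨K, fun N => ?_⟩
  have h2 : ∀ k, ∃ n : ℕ, N ≤ n ∧ (pU k - δ) * n ≤ (cnt ε k n : ℝ) := fun k => by
    obtain ⟨n, hn, hn'⟩ := frequently_atTop.mp (h.arith hδ k).2.1 N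
    exact ⟨n, hn, hn'⟩
  have h3 : ∀ k, ∃ n : ℕ, N ≤ n ∧ (cnt ε k n : ℝ) ≤ (pL k + δ) * n := fun k => by
    obtain ⟨n, hn, hn'⟩ := frequently_atTop.mp (h.arith hδ k).2.2 N
    exact ⟨n, hn, hn'⟩
  choose a ha ha' using h2
  choose b hb hb' using h3
  refine ⟨(Finset.univ.sup a) ⊔ (Finset.univ.sup b), ?_, ?_, ?_⟩
  · intro n hn hn2 k
    rw [length_pre] at hn2
    rw [take_pre ε hn2, count_pre]
    exact hK n hn k
  · intro k
    have hle : a k ≤ (Finset.univ.sup a) ⊔ (Finset.univ.sup b) :=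
      le_sup_of_le_left (Finset.le_sup (Finset.mem_univ k))
    refine ⟨a k, ha k, by rw [length_pre]; exact hle, ?_⟩
    rw [take_pre ε hle, count_pre]
    exact ha' k
  · intro k
    have hle : b k ≤ (Finset.univ.sup a) ⊔ (Finset.univ.sup b) :=
      le_sup_of_le_right (Finset.le_sup (Finset.mem_univ k))
    refine ⟨b k, hb k, by rw [length_pre]; exact hle, ?_⟩
    rw [take_pre ε hle, count_pre]
    exact hb' k

/-- Almost every point has an expansion of the prescribed frequency. -/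
def AEHas (β c : ℝ) (pU pL : Fin (m + 1) → ℝ) : Prop :=
  ∀ᵐ x ∂(volume.restrict (Icc (0:ℝ) c)), ∃ ε : ℕ → Fin (m + 1), IsSum β ε x ∧ FreqOK pU pL ε

lemma cover (h : Par β c m) {pU pL : Fin (m + 1) → ℝ} (hE : AEHas β c pU pL) {δ : ℝ}
    (hδ : 0 < δ) {η : ℝ≥0∞} (hη : 0 < η) :
    ∃ K : ℕ, ∀ N : ℕ, ∃ V : Finset (List (Fin (m + 1))), (∀ w ∈ V, Good pU pL δ K N w) ∧
      ∑ w ∈ V, ENNReal.ofReal β⁻¹ ^ w.length ≤ 1 ∧
      volume (Icc 0 c \ ⋃ w ∈ V, J β c w) < η := by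
  set A : ℕ → Set ℝ := fun K => Icc 0 c ∩ ⋂ N : ℕ, ⋃ w : {w // Good pU pL δ K N w}, J β c w.1
    with hAdef
  have hAm : ∀ K, MeasurableSet (A K) := fun K =>
    measurableSet_Icc.inter (MeasurableSet.iInter fun N => MeasurableSet.iUnion fun w =>
      (isClosed_J w.1).measurableSet)
  have hAmono : Monotone A := by
    intro K K' hK x hx
    refine ⟨hx.1, ?_⟩
    rw [mem_iInter]
    intro N
    have := mem_iInter.mp hx.2 N
    obtain ⟨w, hw⟩ := mem_iUnion.mp this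
    exact mem_iUnion.mpr ⟨⟨w.1, w.2.mono_K hK⟩, hw⟩
  have hanti : Antitone (fun K => Icc 0 c \ A K) := fun K K' hK =>
    sdiff_subset_sdiff_right (hAmono hK)
  have hnull : volume (⋂ K, (Icc 0 c \ A K)) = 0 := by
    unfold AEHas at hE
    rw [ae_restrict_iff' measurableSet_Icc] at hE
    rw [measure_eq_zero_iff_ae_notMem]
    filter_upwards [hE] with x hx hxI
    have hx0 : x ∈ Icc 0 c := (mem_iInter.mp hxI 0).1
    obtain ⟨ε, hε, hf⟩ := hx hx0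
    obtain ⟨K, hK⟩ := hf.exists_good hδ
    refine (mem_iInter.mp hxI K).2 ⟨hx0, ?_⟩
    rw [mem_iInter]
    intro N
    obtain ⟨n0, hn0⟩ := hK N
    exact mem_iUnion.mpr ⟨⟨pre ε n0, hn0⟩, hε.T_mem h n0⟩
  have hinf := hanti.measure_iInter (μ := volume)
    (fun K => (measurableSet_Icc.diff (hAm K)).nullMeasurableSet)
    ⟨0, ((measure_mono sdiff_subset).trans_lt (by simp : volume (Icc (0:ℝ) c) < ∞)).ne⟩
  rw [hnull] at hinf
  have hlt : (⨅ K, volume (Icc 0 c \ A K)) < η := by rw [← hinf]; exact hη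
  rw [iInf_lt_iff] at hlt
  obtain ⟨K, hK⟩ := hlt
  refine ⟨K, fun N => ?_⟩
  refine vitali_words h {w | Good pU pL δ K N w} (A K) ?_ hK
  intro x hx N'
  obtain ⟨w, hw⟩ := mem_iUnion.mp (mem_iInter.mp hx.2 (max N N'))
  exact ⟨w.1, w.2.mono_N (le_max_left _ _), (le_max_right _ _).trans w.2.le_length, hw⟩

end Pool.Agent.Lib.MP_d4a354_an
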