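import Pool.Agent.Lib.MP_d4a354_an.Stage

open MeasureTheory Set Filter Topology
open scoped ENNReal

namespace Pool.Agent.Lib.MP_d4a354_an

variable {m : ℕ} {β c : ℝ}

/-- Blocks: controlled frequencies up to an additive constant `D`. -/
def Blk (pU pL : Fin (m + 1) → ℝ) (δ : ℝ) (D N : ℕ) (p : List (Fin (m + 1))) : Prop :=
  (∀ n : ℕ, n ≤ p.length → ∀ k, (pL k - δ) * n - D ≤ ((p.take n).count k : ℝ) ∧
    ((p.take n).count k : ℝ) ≤ (pU k + δ) * n + D) ∧
  (∀ k, ∃ n : ℕ, N ≤ n ∧ n ≤ p.length ∧ (pU k - δ) * n - D ≤ ((p.take n).count k : ℝ)) ∧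
  (∀ k, ∃ n : ℕ, N ≤ n ∧ n ≤ p.length ∧ ((p.take n).count k : ℝ) ≤ (pL k + δ) * n + D)

lemma count_take_le (w : List (Fin (m + 1))) (n : ℕ) (k : Fin (m + 1)) :
    (w.take n).count k ≤ n :=
  List.count_le_length.trans (by rw [List.length_take]; exact min_le_left _ _)

lemma blk_of_good {pU pL : Fin (m + 1) → ℝ} {δ : ℝ} {K N B A Δ : ℕ} {u w : List (Fin (m + 1))}
    (hu : u.length ≤ B) (hw : Good pU pL δ K N w) (hA : ∀ k, |pU k| ≤ A ∧ |pL k| ≤ A)
    (hδ : 0 < δ) (hΔ : δ ≤ Δ) :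
    Blk pU pL δ ((B + K) * (1 + A + Δ)) N (u ++ w) := by
  have hu' : (u.length : ℝ) ≤ B := by exact_mod_cast hu
  have hB0 : (0:ℝ) ≤ B := by positivity
  have hK0 : (0:ℝ) ≤ K := by positivity
  have hul : (0:ℝ) ≤ (u.length : ℝ) := by positivity
  have hD : (((B + K) * (1 + A + Δ) : ℕ) : ℝ) = (B + K) * (1 + A + Δ) := by push_cast; ring
  refine ⟨?_, ?_, ?_⟩
  · intro n hn k
    have hUk := abs_le.mp (hA k).1
    have hLk := abs_le.mp (hA k).2
    rw [hD]
    by_cases hnu : n ≤ u.length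
    · have e : (u ++ w).take n = u.take n := by
        rw [List.take_append_of_le_length hnu]
      rw [e]
      have h1 : (((u.take n).count k : ℕ) : ℝ) ≤ n := by exact_mod_cast count_take_le u n k
      have h0 : (0:ℝ) ≤ (((u.take n).count k : ℕ) : ℝ) := by positivity
      have hn0 : (0:ℝ) ≤ n := by positivity
      have hnB : (n:ℝ) ≤ B := by exact_mod_cast hnu.trans hu
      constructor
      · nlinarith [mul_nonneg hn0 hδ.le, mul_nonneg hK0 hδ.le, mul_nonneg hB0 hδ.le,
          mul_nonneg hB0 (show (0:ℝ) ≤ A by positivity), mul_nonneg hK0 (show (0:ℝ) ≤ A by positivity),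
          mul_nonneg hB0 (show (0:ℝ) ≤ Δ by positivity), mul_nonneg hK0 (show (0:ℝ) ≤ Δ by positivity),
          mul_nonneg hn0 (show (0:ℝ) ≤ A - pL k by linarith),
          mul_nonneg (show (0:ℝ) ≤ B - n by linarith) (show (0:ℝ) ≤ A by positivity)]
      · nlinarith [mul_nonneg hn0 hδ.le, mul_nonneg hK0 hδ.le, mul_nonneg hB0 hδ.le,
          mul_nonneg hB0 (show (0:ℝ) ≤ A by positivity), mul_nonneg hK0 (show (0:ℝ) ≤ A by positivity),
          mul_nonneg hB0 (show (0:ℝ) ≤ Δ by positivity), mul_nonneg hK0 (show (0:ℝ) ≤ Δ by positivity),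
          mul_nonneg hn0 (show (0:ℝ) ≤ A + pU k by linarith),
          mul_nonneg (show (0:ℝ) ≤ B - n by linarith) (show (0:ℝ) ≤ A by positivity)]
    · push Not at hnu
      obtain ⟨r, rfl⟩ := Nat.exists_eq_add_of_lt hnu
      set s := r + 1 with hs
      have hns : u.length + r + 1 = u.length + s := by omega
      rw [hns] at hn ⊢
      have e : (u ++ w).take (u.length + s) = u ++ w.take s := by
        rw [List.take_length_add_append]
      rw [e, List.count_append]
      have hsw : s ≤ w.length := by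
        rw [List.length_append] at hn; omega
      have h1 : ((u.count k : ℕ) : ℝ) ≤ u.length := by exact_mod_cast List.count_le_length
      have h0 : (0:ℝ) ≤ ((u.count k : ℕ) : ℝ) := by positivity
      have h2 : (((w.take s).count k : ℕ) : ℝ) ≤ s := by exact_mod_cast count_take_le w s k
      have h20 : (0:ℝ) ≤ (((w.take s).count k : ℕ) : ℝ) := by positivity
      have hs0 : (0:ℝ) ≤ s := by positivity
      push_cast
      -- bounds for the second part
      have key : (pL k - δ) * s - K * (1 + A + Δ) ≤ (((w.take s).count k : ℕ) : ℝ) ∧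
          (((w.take s).count k : ℕ) : ℝ) ≤ (pU k + δ) * s + K * (1 + A + Δ) := by
        have hKA : (0:ℝ) ≤ K * (1 + A + Δ) := by positivity
        by_cases hKs : K ≤ s
        · have := hw.1 s hKs hsw k
          constructor <;> linarith [this.1, this.2]
        · push Not at hKs
          have hsK : (s:ℝ) ≤ K := by exact_mod_cast hKs.le
          constructor
          · nlinarith [mul_nonneg hs0 (show (0:ℝ) ≤ A - pL k by linarith),
              mul_nonneg (show (0:ℝ) ≤ K - s by linarith) (show (0:ℝ) ≤ A by positivity),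
              mul_nonneg hs0 hδ.le, mul_nonneg hK0 (show (0:ℝ) ≤ Δ by positivity)]
          · nlinarith [mul_nonneg hs0 (show (0:ℝ) ≤ A + pU k by linarith),
              mul_nonneg (show (0:ℝ) ≤ K - s by linarith) (show (0:ℝ) ≤ A by positivity),
              mul_nonneg hs0 hδ.le, mul_nonneg hK0 (show (0:ℝ) ≤ Δ by positivity)]
      have hΔ0 : (0:ℝ) ≤ (Δ:ℝ) := by positivity
      have hA0 : (0:ℝ) ≤ (A:ℝ) := by positivity
      constructor
      · nlinarith [mul_nonneg hul (show (0:ℝ) ≤ A - pL k by linarith),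
          mul_nonneg (show (0:ℝ) ≤ B - (u.length:ℝ) by linarith) hA0,
          mul_nonneg hul hδ.le, mul_nonneg hB0 hΔ0]
      · nlinarith [mul_nonneg hul (show (0:ℝ) ≤ A + pU k by linarith),
          mul_nonneg (show (0:ℝ) ≤ B - (u.length:ℝ) by linarith) hA0,
          mul_nonneg hul hδ.le, mul_nonneg hB0 hΔ0]
  · intro k
    obtain ⟨r, hr1, hr2, hr3⟩ := hw.2.1 k
    have hUk := abs_le.mp (hA k).1
    refine ⟨u.length + r, by omega, by rw [List.length_append]; omega, ?_⟩
    rw [hD, List.take_length_add_append, List.count_append]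
    push_cast
    have h0 : (0:ℝ) ≤ ((u.count k : ℕ) : ℝ) := by positivity
    have hΔ0 : (0:ℝ) ≤ (Δ:ℝ) := by positivity
    have hA0 : (0:ℝ) ≤ (A:ℝ) := by positivity
    nlinarith [mul_nonneg hul (show (0:ℝ) ≤ A - pU k by linarith),
          mul_nonneg (show (0:ℝ) ≤ B - (u.length:ℝ) by linarith) hA0,
          mul_nonneg hul hδ.le, mul_nonneg hB0 hΔ0, mul_nonneg hK0 hΔ0, mul_nonneg hK0 hA0]
  · intro k
    obtain ⟨r, hr1, hr2, hr3⟩ := hw.2.2 k
    have hLk := abs_le.mp (hA k).2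
    refine ⟨u.length + r, by omega, by rw [List.length_append]; omega, ?_⟩
    rw [hD, List.take_length_add_append, List.count_append]
    push_cast
    have h1 : ((u.count k : ℕ) : ℝ) ≤ u.length := by exact_mod_cast List.count_le_length
    have hΔ0 : (0:ℝ) ≤ (Δ:ℝ) := by positivity
    have hA0 : (0:ℝ) ≤ (A:ℝ) := by positivity
    nlinarith [mul_nonneg hul (show (0:ℝ) ≤ A + pL k by linarith),
          mul_nonneg (show (0:ℝ) ≤ B - (u.length:ℝ) by linarith) hA0,
          mul_nonneg hul hδ.le, mul_nonneg hB0 hΔ0, mul_nonneg hK0 hΔ0, mul_nonneg hK0 hA0]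

/-- Two words that differ at some common position. -/
def Incomp (p q : List (Fin (m + 1))) : Prop :=
  ∃ j : ℕ, ∃ a b : Fin (m + 1), p[j]? = some a ∧ q[j]? = some b ∧ a ≠ b

lemma stage (h : Par β c m) {pU pL : Fin (m + 1) → ℝ} (hE : AEHas β c pU pL) {δ : ℝ}
    (hδ : 0 < δ) {η : ℝ≥0∞} (hη : 0 < η) :
    ∃ (C : ℝ≥0∞) (D : ℕ), 1 ≤ C ∧ C ≠ ∞ ∧ ∀ N : ℕ, ∃ P : Finset (List (Fin (m + 1))),
      (∀ S : Set ℝ, volume (⋃ p ∈ P, T β p ⁻¹' S) ≤ C * volume S) ∧
      (∀ p ∈ P, Blk pU pL δ D N p) ∧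
      ∃ B : Set ℝ, volume B ≤ η ∧ ∀ x ∈ Icc (0:ℝ) c, x ∉ B → ∃ p ∈ P, ∃ q ∈ P, Incomp p q ∧
        T β p x ∈ Icc (0:ℝ) c ∧ T β q x ∈ Icc (0:ℝ) c := by
  classical
  have hβ := h.one_lt
  have hc := h.one_lt_c
  have hpos := h.pos
  have hm := h.one_le_m
  wlog hηt : η ≠ ∞ generalizing η
  · push Not at hηt
    obtain ⟨C, D, h1, h2, h3⟩ := this (η := 1) one_pos ENNReal.one_ne_top
    refine ⟨C, D, h1, h2, fun N => ?_⟩
    obtain ⟨P, h4, h5, B, h6, h7⟩ := h3 N
    exact ⟨P, h4, h5, B, by rw [hηt]; exact le_top, h7⟩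
  have hη2 : (0:ℝ≥0∞) < η / 2 := ENNReal.half_pos hη.ne'
  -- the branching family
  obtain ⟨F, hF⟩ := exists_finset_cover (volume : Measure ℝ) (Icc 0 c) (by simp) measurableSet_Icc
    (fun v : List (Fin (m + 1)) => {x | T β v x ∈ Icc (1 / β) (c / β)})
    (fun v => (continuous_T β v).measurable measurableSet_Icc)
    (by rw [switch_null h]; exact hη2)
  set d0 : Fin (m + 1) := ⟨0, by omega⟩ with hd0
  set d1 : Fin (m + 1) := ⟨1, by omega⟩ with hd1
  set U : Finset (List (Fin (m + 1))) := F.image (fun v => v ++ [d0]) ∪ F.image (fun v => v ++ [d1])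
    with hU
  set CU : ℝ≥0∞ := ∑ u ∈ U, ENNReal.ofReal β⁻¹ ^ u.length with hCU
  have hCUt : CU ≠ ∞ := by
    rw [hCU]
    exact (ENNReal.sum_lt_top.mpr fun u _ => (ENNReal.pow_ne_top ENNReal.ofReal_ne_top).lt_top).ne
  set η' : ℝ≥0∞ := η / 2 / (CU + 1) with hη'
  have hC1t : CU + 1 ≠ ∞ := by simp [hCUt]
  have hη'0 : 0 < η' := ENNReal.div_pos hη2.ne' hC1t
  obtain ⟨K, hK⟩ := cover h hE hδ hη'0
  set B0 : ℕ := U.sup List.length with hB0
  obtain ⟨A, hA⟩ : ∃ A : ℕ, ∀ k, |pU k| ≤ A ∧ |pL k| ≤ A := by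
    obtain ⟨A, hA⟩ := exists_nat_ge (∑ k, (|pU k| + |pL k|))
    refine ⟨A, fun k => ?_⟩
    have hk : |pU k| + |pL k| ≤ ∑ k, (|pU k| + |pL k|) :=
      Finset.single_le_sum (f := fun k => |pU k| + |pL k|) (fun i _ => by positivity)
        (Finset.mem_univ k)
    constructor
    · linarith [abs_nonneg (pL k)]
    · linarith [abs_nonneg (pU k)]
  obtain ⟨Δ, hΔ⟩ := exists_nat_ge δ
  refine ⟨CU + 1, (B0 + K) * (1 + A + Δ), by simp, hC1t, fun N => ?_⟩
  obtain ⟨V, hV1, hV2, hV3⟩ := hK N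
  refine ⟨(U ×ˢ V).image (fun a => a.1 ++ a.2), ?_, ?_, ?_⟩
  · intro S
    have hsub : (⋃ p ∈ (U ×ˢ V).image (fun a => a.1 ++ a.2), T β p ⁻¹' S) ⊆
        ⋃ u ∈ U, T β u ⁻¹' (⋃ w ∈ V, T β w ⁻¹' S) := by
      intro x hx
      simp only [Finset.mem_image, Finset.mem_product, mem_iUnion] at hx
      obtain ⟨p, ⟨⟨u, w⟩, ⟨hu, hw⟩, rfl⟩, hx⟩ := hx
      simp only [mem_iUnion, mem_preimage]
      refine ⟨u, hu, w, hw, ?_⟩
      rw [mem_preimage, T_append] at hx
      exact hx
    refine (measure_mono hsub).trans ?_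
    refine (measure_biUnion_finset_le U _).trans ?_
    simp only [volume_preimage_T hβ]
    rw [← Finset.sum_mul]
    have hle : volume (⋃ w ∈ V, T β w ⁻¹' S) ≤ volume S := by
      refine (measure_biUnion_finset_le V _).trans ?_
      simp only [volume_preimage_T hβ]
      rw [← Finset.sum_mul]
      calc _ ≤ 1 * volume S := by gcongr
        _ = volume S := one_mul _
    calc _ ≤ (CU + 1) * volume (⋃ w ∈ V, T β w ⁻¹' S) := by
          gcongr
          exact le_self_add
      _ ≤ (CU + 1) * volume S := by gcongr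
  · intro p hp
    rw [Finset.mem_image] at hp
    obtain ⟨⟨u, w⟩, huw, rfl⟩ := hp
    rw [Finset.mem_product] at huw
    exact blk_of_good (Finset.le_sup (f := List.length) huw.1) (hV1 w huw.2) hA hδ hΔ
  · refine ⟨(Icc 0 c \ ⋃ v ∈ F, {x | T β v x ∈ Icc (1 / β) (c / β)}) ∪
      ⋃ u ∈ U, T β u ⁻¹' (Icc 0 c \ ⋃ w ∈ V, J β c w), ?_, ?_⟩
    · refine (measure_union_le _ _).trans ?_
      have h2 : volume (⋃ u ∈ U, T β u ⁻¹' (Icc 0 c \ ⋃ w ∈ V, J β c w)) ≤ η / 2 := by
        refine (measure_biUnion_finset_le U _).trans ?_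
        simp only [volume_preimage_T hβ]
        rw [← Finset.sum_mul]
        calc CU * volume (Icc 0 c \ ⋃ w ∈ V, J β c w) ≤ (CU + 1) * η' := by
              gcongr
              exact le_self_add
          _ = η / 2 := by
              rw [hη']
              exact ENNReal.mul_div_cancel (by simp) hC1t
      calc _ ≤ η / 2 + η / 2 := add_le_add hF.le h2
        _ = η := ENNReal.add_halves η
    · intro x hx hxB
      simp only [mem_union, not_or] at hxB
      obtain ⟨hxB1, hxB2⟩ := hxB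
      have hv : ∃ v ∈ F, T β v x ∈ Icc (1 / β) (c / β) := by
        by_contra hcon
        push Not at hcon
        refine hxB1 ⟨hx, fun hx2 => ?_⟩
        obtain ⟨v, hvF, hv⟩ := mem_iUnion₂.mp hx2
        exact hcon v hvF hv
      obtain ⟨v, hvF, hv⟩ := hv
      have hv1 : 1 ≤ β * T β v x := by
        have := hv.1
        rw [div_le_iff₀ hpos] at this
        linarith
      have hv2 : β * T β v x ≤ c := by
        have := hv.2
        rw [le_div_iff₀ hpos] at this
        linarith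
      have hT0 : T β (v ++ [d0]) x ∈ Icc 0 c := by
        rw [T_append]
        simp only [T_cons, T_nil, hd0, Nat.cast_zero, sub_zero]
        constructor <;> linarith
      have hT1 : T β (v ++ [d1]) x ∈ Icc 0 c := by
        rw [T_append]
        simp only [T_cons, T_nil, hd1, Nat.cast_one]
        constructor <;> linarith
      have hU0 : v ++ [d0] ∈ U := Finset.mem_union_left _ (Finset.mem_image_of_mem _ hvF)
      have hU1 : v ++ [d1] ∈ U := Finset.mem_union_right _ (Finset.mem_image_of_mem _ hvF)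
      have hw : ∀ u ∈ U, T β u x ∈ Icc 0 c → ∃ w ∈ V, T β u x ∈ J β c w := by
        intro u hu huT
        by_contra hcon
        push Not at hcon
        apply hxB2
        rw [mem_iUnion₂]
        refine ⟨u, hu, huT, fun hx2 => ?_⟩
        obtain ⟨w, hwV, hw⟩ := mem_iUnion₂.mp hx2
        exact hcon w hwV hw
      obtain ⟨w0, hw0V, hw0⟩ := hw _ hU0 hT0
      obtain ⟨w1, hw1V, hw1⟩ := hw _ hU1 hT1
      refine ⟨v ++ [d0] ++ w0, ?_, v ++ [d1] ++ w1, ?_, ?_, ?_, ?_⟩
      · exact Finset.mem_image.mpr ⟨(v ++ [d0], w0), Finset.mem_product.mpr ⟨hU0, hw0V⟩, rfl⟩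
      · exact Finset.mem_image.mpr ⟨(v ++ [d1], w1), Finset.mem_product.mpr ⟨hU1, hw1V⟩, rfl⟩
      · refine ⟨v.length, d0, d1, by simp, by simp, ?_⟩
        rw [hd0, hd1]
        simp
      · rw [T_append]; exact hw0
      · rw [T_append]; exact hw1

end Pool.Agent.Lib.MP_d4a354_an
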