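import Pool.Agent.Lib.MP_d4a354_an.Cover

open MeasureTheory Set Filter Topology
open scoped ENNReal

namespace Pool.Agent.Lib.MP_d4a354_an

variable {m : ℕ} {β c : ℝ}

/-- The points whose `T w`-image lies in `I`. -/
def J (β c : ℝ) (w : List (Fin (m + 1))) : Set ℝ := {x | T β w x ∈ Icc 0 c}

lemma volume_J (h : Par β c m) (w : List (Fin (m + 1))) :
    volume (J β c w) = ENNReal.ofReal β⁻¹ ^ w.length * ENNReal.ofReal c := by
  have := volume_preimage_T h.one_lt w (Icc 0 c)
  rw [Real.volume_Icc, sub_zero] at this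
  exact this

lemma isClosed_J (w : List (Fin (m + 1))) : IsClosed (J β c w) :=
  isClosed_Icc.preimage (continuous_T β w)

lemma J_subset (h : Par β c m) (w : List (Fin (m + 1))) : J β c w ⊆ Icc 0 c :=
  fun _ hx => mem_of_T_mem h w hx

lemma abs_sub_le_of_mem_J (h : Par β c m) {w : List (Fin (m + 1))} {x y : ℝ} (hx : x ∈ J β c w)
    (hy : y ∈ J β c w) : |x - y| ≤ c * β⁻¹ ^ w.length := by
  have h1 := T_sub β x y w
  have hb : (0:ℝ) < β ^ w.length := pow_pos h.pos _
  have h2 : |T β w x - T β w y| ≤ c := by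
    have hx' : T β w x ∈ Icc 0 c := hx
    have hy' : T β w y ∈ Icc 0 c := hy
    rw [abs_le]; constructor <;> linarith [hx'.1, hx'.2, hy'.1, hy'.2]
  rw [h1, abs_mul, abs_of_pos hb] at h2
  rw [inv_pow, ← div_eq_mul_inv, le_div_iff₀ hb]
  linarith

lemma vitali_words (h : Par β c m) (G : Set (List (Fin (m + 1)))) (A : Set ℝ)
    (hA : ∀ x ∈ A, ∀ N : ℕ, ∃ w ∈ G, N ≤ w.length ∧ T β w x ∈ Icc 0 c) {η : ℝ≥0∞}
    (hη : volume (Icc 0 c \ A) < η) :
    ∃ V : Finset (List (Fin (m + 1))), (∀ w ∈ V, w ∈ G) ∧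
      ∑ w ∈ V, ENNReal.ofReal β⁻¹ ^ w.length ≤ 1 ∧
      volume (Icc 0 c \ ⋃ w ∈ V, J β c w) < η := by
  classical
  have hβ := h.one_lt
  have hc := h.one_lt_c
  have hpos := h.pos
  have hc0 : (0:ℝ) < c := by linarith
  have hbi : (0:ℝ) < β⁻¹ := inv_pos.mpr hpos
  obtain ⟨u, hut, hucount, hudisj, hunull⟩ := Vitali.exists_disjoint_covering_ae
    (volume : Measure ℝ) A {a : ℝ × List (Fin (m + 1)) | a.2 ∈ G ∧ a.1 ∈ J β c a.2} 6
    (fun a => c * β⁻¹ ^ a.2.length) (fun a => a.1) (fun a => J β c a.2)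
    (by
      rintro a ⟨_, ha⟩ y hy
      rw [Metric.mem_closedBall, Real.dist_eq]
      exact abs_sub_le_of_mem_J h hy ha)
    (by
      rintro a ⟨_, ha⟩
      rw [Real.volume_closedBall, volume_J h]
      have : (2 * (3 * (c * β⁻¹ ^ a.2.length))) = 6 * (β⁻¹ ^ a.2.length * c) := by ring
      rw [this, ENNReal.ofReal_mul (by norm_num), ENNReal.ofReal_mul (by positivity),
        ENNReal.ofReal_pow hbi.le]
      apply le_of_eq
      congr 1
      simp)
    (by
      rintro a _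
      obtain ⟨y, hy⟩ := T_surj hβ a.2 (c / 2)
      refine ⟨y, ?_⟩
      rw [mem_interior]
      refine ⟨T β a.2 ⁻¹' (Ioo 0 c), ?_, isOpen_Ioo.preimage (continuous_T β a.2), ?_⟩
      · intro z hz
        exact Ioo_subset_Icc_self hz
      · simp only [mem_preimage, hy, mem_Ioo]
        constructor <;> linarith)
    (fun a _ => isClosed_J a.2)
    (by
      intro x hx ε hε
      have ht : Tendsto (fun n : ℕ => c * (β⁻¹) ^ n) atTop (𝓝 0) := by
        have := (tendsto_pow_atTop_nhds_zero_of_lt_one hbi.le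
          (inv_lt_one_of_one_lt₀ hβ)).const_mul c
        simpa using this
      obtain ⟨N, hN⟩ := (ht.eventually (gt_mem_nhds hε)).exists
      obtain ⟨w, hwG, hwN, hwT⟩ := hA x hx N
      refine ⟨(x, w), ⟨hwG, hwT⟩, ?_, rfl⟩
      have : β⁻¹ ^ w.length ≤ β⁻¹ ^ N :=
        pow_le_pow_of_le_one hbi.le (inv_le_one_of_one_le₀ hβ.le) hwN
      simp only
      nlinarith)
  haveI : Countable u := hucount.to_subtype
  have hfin : volume (Icc 0 c \ ⋃ a : u, J β c a.1.2) < η := by
    refine lt_of_le_of_lt ?_ hη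
    have hsub : Icc 0 c \ ⋃ a : u, J β c a.1.2 ⊆
        (Icc 0 c \ A) ∪ (A \ ⋃ a ∈ u, J β c a.2) := by
      intro x hx
      by_cases hxA : x ∈ A
      · right
        refine ⟨hxA, fun hx2 => hx.2 ?_⟩
        rw [mem_iUnion₂] at hx2
        obtain ⟨a, ha, hxa⟩ := hx2
        exact mem_iUnion.mpr ⟨⟨a, ha⟩, hxa⟩
      · left; exact ⟨hx.1, hxA⟩
    refine (measure_mono hsub).trans ((measure_union_le _ _).trans ?_)
    rw [hunull, add_zero]
  obtain ⟨F, hF⟩ := exists_finset_cover (volume : Measure ℝ) (Icc 0 c) (by simp) measurableSet_Icc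
    (fun a : u => J β c a.1.2) (fun a => (isClosed_J _).measurableSet) hfin
  refine ⟨F.image (fun a => a.1.2), ?_, ?_, ?_⟩
  · intro w hw
    rw [Finset.mem_image] at hw
    obtain ⟨a, _, rfl⟩ := hw
    exact (hut a.2).1
  · have hdisj : (↑(F.image (fun a : u => a.1.2)) : Set (List (Fin (m + 1)))).PairwiseDisjoint
        (J β c) := by
      intro w hw w' hw' hne
      simp only [Finset.coe_image, mem_image, Finset.mem_coe] at hw hw'
      obtain ⟨a, _, rfl⟩ := hw
      obtain ⟨a', _, rfl⟩ := hw'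
      have : a.1 ≠ a'.1 := fun heq => hne (by rw [heq])
      exact hudisj a.2 a'.2 this
    have hsum := measure_biUnion_finset (μ := (volume : Measure ℝ)) hdisj
      (fun w _ => (isClosed_J w).measurableSet)
    have hle : volume (⋃ w ∈ F.image (fun a : u => a.1.2), J β c w) ≤ volume (Icc (0:ℝ) c) := by
      apply measure_mono
      exact iUnion₂_subset fun w _ => J_subset h w
    rw [hsum] at hle
    simp only [volume_J h] at hle
    rw [← Finset.sum_mul, Real.volume_Icc, sub_zero] at hle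
    have hcc : ENNReal.ofReal c ≠ 0 := by simp [hc0]
    have hct : ENNReal.ofReal c ≠ ∞ := ENNReal.ofReal_ne_top
    have : (∑ w ∈ F.image (fun a : u => a.1.2), ENNReal.ofReal β⁻¹ ^ w.length) * ENNReal.ofReal c
        ≤ 1 * ENNReal.ofReal c := by rw [one_mul]; exact hle
    exact (ENNReal.mul_le_mul_iff_left hcc hct).mp this
  · refine lt_of_le_of_lt (measure_mono ?_) hF
    intro x hx
    refine ⟨hx.1, fun hx2 => hx.2 ?_⟩
    rw [mem_iUnion₂] at hx2 ⊢
    obtain ⟨a, ha, hxa⟩ := hx2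
    exact ⟨a.1.2, Finset.mem_image_of_mem _ ha, hxa⟩

end Pool.Agent.Lib.MP_d4a354_an
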